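import Pool.Agent.H51.MO.TargetsA

/-!
# Module A_MOM of the board mo_modules (MP_c62aed_lc): moments of a random sum of signs
-/

set_option autoImplicit false

namespace Pool.Agent.H13.MO

open Finset
open Pool.Agent.H51.MO

theorem term_le_cosh (q : ℕ) (s : ℝ) : s ^ (2 * q) / (2 * q).factorial ≤ Real.cosh s := by
  have h := Real.hasSum_cosh s
  refine le_hasSum h q ?_
  intro j _
  have : 0 ≤ s ^ (2 * j) := by rw [pow_mul]; positivity
  positivity

theorem sum_exp (b : ℕ) (L : ℝ) :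
    ∑ x : Fin b → Bool, Real.exp (L * ∑ i, sg (x i)) = (Real.exp L + Real.exp (-L)) ^ b := by
  have h1 : ∀ x : Fin b → Bool, Real.exp (L * ∑ i, sg (x i)) = ∏ i, Real.exp (L * sg (x i)) := by
    intro x
    rw [Finset.mul_sum, Real.exp_sum]
  rw [Finset.sum_congr rfl fun x _ => h1 x]
  have h2 := Finset.prod_univ_sum (ι := Fin b) (κ := fun _ => Bool)
    (fun _ => (Finset.univ : Finset Bool)) (fun _ c => Real.exp (L * sg c))
  rw [Fintype.piFinset_univ] at h2
  rw [← h2]
  simp [sg, Finset.prod_const]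

theorem sum_cosh (b : ℕ) (L : ℝ) :
    ∑ x : Fin b → Bool, Real.cosh (L * ∑ i, sg (x i)) = 2 ^ b * Real.cosh L ^ b := by
  have h1 := sum_exp b L
  have h2 := sum_exp b (-L)
  rw [neg_neg] at h2
  have h3 : ∀ x : Fin b → Bool, Real.cosh (L * ∑ i, sg (x i)) =
      (Real.exp (L * ∑ i, sg (x i)) + Real.exp (-L * ∑ i, sg (x i))) / 2 := by
    intro x
    rw [Real.cosh_eq]
    congr 3
    ring
  rw [Finset.sum_congr rfl fun x _ => h3 x, ← Finset.sum_div, Finset.sum_add_distrib, h1, h2,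
    Real.cosh_eq, ← mul_pow, add_comm (Real.exp (-L))]
  have h4 : (2 : ℝ) * ((Real.exp L + Real.exp (-L)) / 2) = Real.exp L + Real.exp (-L) := by ring
  rw [h4]
  ring

theorem pf_AMOM : S_AMOM := by
  intro b q
  rcases Nat.eq_zero_or_pos q with hq | hq
  · subst hq
    simp
  rcases Nat.eq_zero_or_pos b with hb | hb
  · subst hb
    have : 2 * q ≠ 0 := by omega
    simp [this, hq.ne']
  have hqr : (0 : ℝ) < q := by exact_mod_cast hq
  have hbr : (0 : ℝ) < b := by exact_mod_cast hb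
  set L : ℝ := Real.sqrt (2 * q / b) with hL
  have hL2 : L ^ 2 = 2 * q / b := Real.sq_sqrt (by positivity)
  have hLp : 0 < L := Real.sqrt_pos.2 (by positivity)
  have hL2q : L ^ (2 * q) = (2 * q / b) ^ q := by rw [pow_mul, hL2]
  have hf : (0 : ℝ) < ((2 * q).factorial : ℝ) := by exact_mod_cast (2 * q).factorial_pos
  -- pointwise
  have hpt : ∀ x : Fin b → Bool, (∑ i, sg (x i)) ^ (2 * q) ≤
      (2 * q).factorial / L ^ (2 * q) * Real.cosh (L * ∑ i, sg (x i)) := by
    intro x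
    have h := term_le_cosh q (L * ∑ i, sg (x i))
    rw [mul_pow, div_le_iff₀ hf] at h
    rw [div_mul_eq_mul_div, le_div_iff₀ (by positivity)]
    linarith
  refine (Finset.sum_le_sum fun x _ => hpt x).trans ?_
  rw [← Finset.mul_sum, sum_cosh]
  have hc : Real.cosh L ^ b ≤ Real.exp q := by
    have h1 := Real.cosh_le_exp_half_sq L
    have h2 : Real.cosh L ^ b ≤ Real.exp (L ^ 2 / 2) ^ b :=
      pow_le_pow_left₀ (Real.cosh_pos L).le h1 b
    refine h2.trans ?_
    rw [← Real.exp_nat_mul, hL2]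
    apply le_of_eq
    congr 1
    field_simp
  have he : Real.exp q ≤ 3 ^ q := by
    have h1 : Real.exp (q : ℝ) = Real.exp 1 ^ q := by
      rw [← Real.exp_nat_mul]; simp
    rw [h1]
    exact pow_le_pow_left₀ (Real.exp_pos 1).le Real.exp_one_lt_three.le q
  have hfac : ((2 * q).factorial : ℝ) ≤ (2 * q : ℝ) ^ (2 * q) := by
    have h1 := Nat.factorial_le_pow (2 * q)
    exact_mod_cast h1
  have hmain : ((2 * q).factorial : ℝ) / L ^ (2 * q) * Real.exp q ≤ (8 * q * b : ℝ) ^ q := by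
    have h1 : ((2 * q).factorial : ℝ) / L ^ (2 * q) ≤ (2 * q : ℝ) ^ (2 * q) / L ^ (2 * q) :=
      div_le_div_of_nonneg_right hfac (by positivity)
    have h2 : (2 * q : ℝ) ^ (2 * q) / L ^ (2 * q) = (2 * q * b : ℝ) ^ q := by
      rw [hL2q, pow_mul, ← div_pow]
      congr 1
      field_simp
    rw [h2] at h1
    calc ((2 * q).factorial : ℝ) / L ^ (2 * q) * Real.exp q
        ≤ (2 * q * b : ℝ) ^ q * 3 ^ q :=
          mul_le_mul h1 he (Real.exp_pos _).le (by positivity)
      _ = (6 * q * b : ℝ) ^ q := by rw [← mul_pow]; congr 1; ring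
      _ ≤ (8 * q * b : ℝ) ^ q := by
          apply pow_le_pow_left₀ (by positivity)
          have : 0 ≤ (q : ℝ) * b := by positivity
          nlinarith
  have hM : (0 : ℝ) < 2 ^ b := by positivity
  calc ((2 * q).factorial : ℝ) / L ^ (2 * q) * (2 ^ b * Real.cosh L ^ b)
      ≤ ((2 * q).factorial : ℝ) / L ^ (2 * q) * (2 ^ b * Real.exp q) := by
        apply mul_le_mul_of_nonneg_left _ (by positivity)
        exact mul_le_mul_of_nonneg_left hc hM.le
    _ = 2 ^ b * (((2 * q).factorial : ℝ) / L ^ (2 * q) * Real.exp q) := by ring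
    _ ≤ 2 ^ b * (8 * q * b : ℝ) ^ q := mul_le_mul_of_nonneg_left hmain hM.le

end Pool.Agent.H13.MO
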