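import Pool.Agent.H51.MO.TargetsB

/-!
# MP_c62aed_lc: monotone circuits for k-SAT, row B_MFIN (the theorem from the core)
-/

set_option autoImplicit false

namespace Pool.Agent.H13.MO

open Finset Pool.Agent.H51.MO
open Pool.Agent.H1.LP (Clause viol Loc Sys Agree supp ip kk)
open Pool.Agent.H96.KX

theorem pf_MFIN (hC : S_MCORE) (hP : S_PARM) : S_MFIN := by
  classical
  intro ε hε
  obtain ⟨E, L, K, γ, hE, hL, hEε, hγ, n₀, hn⟩ := hP ε hε
  refine ⟨(4 * E + 1) * (L + 1) * kk E, K, γ, hγ, n₀, fun n hn0 => ?_⟩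
  obtain ⟨B, hkB, hBn, hKn, hpar⟩ := hn n hn0
  obtain ⟨Y, m, phi, hY, h1, h2⟩ := hC E L n B hE hL hkB hBn
  refine ⟨Y, m, phi, hY, ?_, ?_⟩
  · intro a
    obtain ⟨g1, g2, g3, g4⟩ := h1 a
    refine ⟨g1, g2.trans hKn, g3, fun x => le_trans ?_ (g4 x)⟩
    gcongr
  · intro C hS hB
    have hS' : Sound C ((4 * E + 1) * (L + 1) * kk E)
        (4 * E * B * 2 ^ ((4 * E + 1) * (L + 1) * kk E)) := by
      intro m' phi' hm'
      exact hS m' phi' (hm'.trans hKn)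
    have h3 := h2 C (univ.filter (fun a => Pool.Agent.H51.MO.Acc C (phi a))) ((2 : ℝ) ^ ((1 - ε) * n)) hS'
      (fun a ha => (mem_filter.1 ha).2) hB
    refine hpar ((2 : ℝ) ^ ((1 - ε) * n)) _ Y (Nat.cast_nonneg Y) le_rfl ?_
    have hx : ((2 : ℝ) ^ (-(γ * n))) ^ 2 ≤ 1 := by
      have h4 : (2 : ℝ) ^ (-(γ * n)) ≤ 1 := by
        apply Real.rpow_le_one_of_one_le_of_nonpos (by norm_num)
        have : 0 ≤ γ * n := mul_nonneg hγ.le (Nat.cast_nonneg n)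
        linarith
      exact pow_le_one₀ (by positivity) h4
    have ha : (4 * (E : ℝ) * B) ≤ 9 * (4 * E * B * 2 ^ ((4 * E + 1) * (L + 1) * kk E)) ^ 2 := by
      have h5 : (4 * E * B) ≤ 9 * (4 * E * B * 2 ^ ((4 * E + 1) * (L + 1) * kk E)) ^ 2 := by
        obtain ⟨a, ha⟩ : ∃ a, a = 4 * E * B := ⟨_, rfl⟩
        obtain ⟨b, hb⟩ : ∃ b, b = 2 ^ ((4 * E + 1) * (L + 1) * kk E) := ⟨_, rfl⟩
        have hb1 : 1 ≤ b := by rw [hb]; exact Nat.one_le_two_pow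
        rw [← ha, ← hb]
        have h6 : a ≤ (a * b) := Nat.le_mul_of_pos_right a hb1
        have h7 : a * b ≤ (a * b) ^ 2 := Nat.le_self_pow two_ne_zero _
        omega
      exact_mod_cast h5
    have hcP : (0 : ℝ) ≤ ((univ.filter (fun a => Pool.Agent.H51.MO.Acc C (phi a))).card : ℝ) *
        2 ^ (4 * E * (L - 2) * (B - 8 * (B / E))) := by positivity
    calc ((2 : ℝ) ^ (-(γ * n))) ^ 2 *
          ((univ.filter (fun a => Pool.Agent.H51.MO.Acc C (phi a))).card : ℝ) *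
          2 ^ (4 * E * (L - 2) * (B - 8 * (B / E)))
        = ((2 : ℝ) ^ (-(γ * n))) ^ 2 *
          (((univ.filter (fun a => Pool.Agent.H51.MO.Acc C (phi a))).card : ℝ) *
          2 ^ (4 * E * (L - 2) * (B - 8 * (B / E)))) := by ring
      _ ≤ 1 * (((univ.filter (fun a => Pool.Agent.H51.MO.Acc C (phi a))).card : ℝ) *
          2 ^ (4 * E * (L - 2) * (B - 8 * (B / E)))) := mul_le_mul_of_nonneg_right hx hcP
      _ ≤ (4 * E * B) * (2 ^ (4 * E + 1)) ^ (2 * B) * 4 ^ B * (2 : ℝ) ^ ((1 - ε) * n) * Y := by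
          rw [one_mul]; exact h3
      _ ≤ 9 * (4 * E * B * 2 ^ ((4 * E + 1) * (L + 1) * kk E)) ^ 2 *
            (2 ^ (4 * E + 1)) ^ (2 * B) * 4 ^ B * (2 : ℝ) ^ ((1 - ε) * n) * Y := by
          gcongr

end Pool.Agent.H13.MO
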